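import Pool.Agent.H80.LD.Targets

/-!
# Row LEB of the board ldp (helper80, MP_47c37b_mp)

The Lebowitz inequality from the positivity for four replicas.
-/

set_option autoImplicit false

open MeasureTheory Filter Topology

namespace Pool.Agent.H1.LD

open Pool.Agent.H80.LD
open Pool.Agent.H43.DPC (V)

/-! ### Functions with all moments -/

section Mo

variable {Ω : Type*} [MeasurableSpace Ω] {ν : Measure Ω} {f g : Ω → ℝ}

/-- all moments are finite -/
def Mo (ν : Measure Ω) (f : Ω → ℝ) : Prop :=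
  AEStronglyMeasurable f ν ∧ ∀ p : ℕ, Integrable (fun z => f z ^ (2 * p)) ν

theorem Mo.integrable [IsFiniteMeasure ν] (hf : Mo ν f) : Integrable f ν := by
  have h1 : Integrable (fun z => 1 + f z ^ (2 * 1)) ν := (integrable_const 1).add (hf.2 1)
  refine h1.mono' hf.1 (Filter.Eventually.of_forall fun z => ?_)
  rw [Real.norm_eq_abs, mul_one]
  have h2 : (0 : ℝ) ≤ (|f z| - 1) ^ 2 := sq_nonneg _
  have h3 : |f z| ^ 2 = f z ^ 2 := sq_abs _
  nlinarith [abs_nonneg (f z)]

theorem Mo.const [IsFiniteMeasure ν] (c : ℝ) : Mo ν (fun _ => c) :=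
  ⟨aestronglyMeasurable_const, fun _ => integrable_const _⟩

theorem Mo.mul (hf : Mo ν f) (hg : Mo ν g) : Mo ν (fun z => f z * g z) := by
  refine ⟨hf.1.mul hg.1, fun p => ?_⟩
  have h1 : Integrable (fun z => f z ^ (2 * (2 * p)) + g z ^ (2 * (2 * p))) ν :=
    (hf.2 (2 * p)).add (hg.2 (2 * p))
  refine h1.mono' ((hf.1.mul hg.1).pow _) (Filter.Eventually.of_forall fun z => ?_)
  have h2 : 0 ≤ (f z * g z) ^ (2 * p) := by
    rw [pow_mul]; positivity
  show ‖(f z * g z) ^ (2 * p)‖ ≤ _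
  rw [Real.norm_eq_abs, abs_of_nonneg h2, mul_pow]
  have e1 : f z ^ (2 * (2 * p)) = (f z ^ (2 * p)) ^ 2 := by rw [← pow_mul]; ring_nf
  have e2 : g z ^ (2 * (2 * p)) = (g z ^ (2 * p)) ^ 2 := by rw [← pow_mul]; ring_nf
  rw [e1, e2]
  nlinarith [sq_nonneg (f z ^ (2 * p) - g z ^ (2 * p)), sq_nonneg (f z ^ (2 * p)),
    sq_nonneg (g z ^ (2 * p))]

theorem Mo.add (hf : Mo ν f) (hg : Mo ν g) : Mo ν (fun z => f z + g z) := by
  refine ⟨hf.1.add hg.1, fun p => ?_⟩
  have h1 : Integrable (fun z => 2 ^ (2 * p - 1) * (f z ^ (2 * p) + g z ^ (2 * p))) ν :=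
    ((hf.2 p).add (hg.2 p)).const_mul _
  refine h1.mono' ((hf.1.add hg.1).pow _) (Filter.Eventually.of_forall fun z => ?_)
  have hev : ∀ y : ℝ, |y| ^ (2 * p) = y ^ (2 * p) := by
    intro y
    rw [pow_mul, sq_abs, ← pow_mul]
  show ‖(f z + g z) ^ (2 * p)‖ ≤ _
  rw [norm_pow, Real.norm_eq_abs]
  calc |f z + g z| ^ (2 * p) ≤ (|f z| + |g z|) ^ (2 * p) :=
        pow_le_pow_left₀ (abs_nonneg _) (abs_add_le _ _) _
    _ ≤ 2 ^ (2 * p - 1) * (|f z| ^ (2 * p) + |g z| ^ (2 * p)) :=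
        add_pow_le (abs_nonneg _) (abs_nonneg _) _
    _ = 2 ^ (2 * p - 1) * (f z ^ (2 * p) + g z ^ (2 * p)) := by rw [hev, hev]

theorem Mo.sum [IsFiniteMeasure ν] {ι : Type*} (s : Finset ι) {F : ι → Ω → ℝ}
    (h : ∀ i ∈ s, Mo ν (F i)) : Mo ν (fun z => ∑ i ∈ s, F i z) := by
  classical
  induction s using Finset.induction_on with
  | empty => simpa using Mo.const (ν := ν) 0
  | insert a s ha ih =>
    simp only [Finset.sum_insert ha]
    exact (h a (Finset.mem_insert_self _ _)).add (ih fun i hi => h i (Finset.mem_insert_of_mem hi))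

theorem Mo.prod [IsFiniteMeasure ν] {ι : Type*} (s : Finset ι) {F : ι → Ω → ℝ}
    (h : ∀ i ∈ s, Mo ν (F i)) : Mo ν (fun z => ∏ i ∈ s, F i z) := by
  classical
  induction s using Finset.induction_on with
  | empty => simpa using Mo.const (ν := ν) 1
  | insert a s ha ih =>
    simp only [Finset.prod_insert ha]
    exact (h a (Finset.mem_insert_self _ _)).mul (ih fun i hi => h i (Finset.mem_insert_of_mem hi))

theorem Mo.pow [IsFiniteMeasure ν] (hf : Mo ν f) (n : ℕ) : Mo ν (fun z => f z ^ n) := by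
  have h := Mo.prod (ν := ν) (Finset.range n) (F := fun _ => f) fun i _ => hf
  simpa using h

theorem Mo.poly [IsFiniteMeasure ν] {ι : Type*} {v : Ω → ι → ℝ} (h : ∀ i, Mo ν (fun z => v z i))
    (p : MvPolynomial ι ℝ) : Mo ν (fun z => MvPolynomial.eval (v z) p) := by
  induction p using MvPolynomial.induction_on with
  | C a => simpa using Mo.const (ν := ν) a
  | add p q hp hq => simpa using hp.add hq
  | mul_X p i hp => simpa using hp.mul (h i)

end Mo

/-! ### The cone -/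

/-- polynomials with nonnegative coefficients -/
def cone (ι : Type*) : Subsemiring (MvPolynomial ι ℝ) where
  carrier := {p | ∀ m, 0 ≤ p.coeff m}
  mul_mem' := by
    classical
    intro a b ha hb m
    rw [MvPolynomial.coeff_mul]
    exact Finset.sum_nonneg fun x _ => mul_nonneg (ha _) (hb _)
  one_mem' := by
    classical
    intro m
    rw [MvPolynomial.coeff_one]
    split_ifs <;> norm_num
  add_mem' := by
    intro a b ha hb m
    rw [MvPolynomial.coeff_add]
    exact add_nonneg (ha m) (hb m)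
  zero_mem' := by
    intro m
    rw [MvPolynomial.coeff_zero]

theorem C_mem {ι : Type*} {a : ℝ} (ha : 0 ≤ a) : MvPolynomial.C a ∈ cone ι := by
  classical
  intro m
  rw [MvPolynomial.coeff_C]
  split_ifs
  · exact ha
  · exact le_rfl

theorem X_mem {ι : Type*} (i : ι) : (MvPolynomial.X i : MvPolynomial ι ℝ) ∈ cone ι := by
  classical
  intro m
  rw [MvPolynomial.coeff_X]
  split_ifs <;> norm_num

theorem diff_mem {R : Type*} [CommRing R] (S : Subsemiring R) {κ : Type*} (a b : κ → R)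
    (ha : ∀ i, a i ∈ S) (hb : ∀ i, b i ∈ S) (T : Finset κ) :
    ∏ i ∈ T, (a i + b i) - ∏ i ∈ T, (a i - b i) ∈ S ∧
      ∏ i ∈ T, (a i + b i) + ∏ i ∈ T, (a i - b i) ∈ S := by
  classical
  induction T using Finset.induction_on with
  | empty => exact ⟨by simp [S.zero_mem], by simpa using S.add_mem S.one_mem S.one_mem⟩
  | insert i T hi ih =>
    rw [Finset.prod_insert hi, Finset.prod_insert hi]
    constructor
    · have e : (a i + b i) * ∏ i ∈ T, (a i + b i) - (a i - b i) * ∏ i ∈ T, (a i - b i) =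
          a i * (∏ i ∈ T, (a i + b i) - ∏ i ∈ T, (a i - b i)) +
          b i * (∏ i ∈ T, (a i + b i) + ∏ i ∈ T, (a i - b i)) := by ring
      rw [e]
      exact S.add_mem (S.mul_mem (ha i) ih.1) (S.mul_mem (hb i) ih.2)
    · have e : (a i + b i) * ∏ i ∈ T, (a i + b i) + (a i - b i) * ∏ i ∈ T, (a i - b i) =
          a i * (∏ i ∈ T, (a i + b i) + ∏ i ∈ T, (a i - b i)) +
          b i * (∏ i ∈ T, (a i + b i) - ∏ i ∈ T, (a i - b i)) := by ring
      rw [e]
      exact S.add_mem (S.mul_mem (ha i) ih.2) (S.mul_mem (hb i) ih.1)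

/-! ### Four replicas -/

/-- four replicas as a family -/
def psi {Ω : Type*} (w : (Ω × Ω) × (Ω × Ω)) : Fin 4 → Ω := ![w.1.1, w.1.2, w.2.1, w.2.2]

theorem psi_meas {Ω : Type*} [MeasurableSpace Ω] : Measurable (psi (Ω := Ω)) := by
  rw [measurable_pi_iff]
  intro i
  fin_cases i
  · exact measurable_fst.fst
  · exact measurable_fst.snd
  · exact measurable_snd.fst
  · exact measurable_snd.snd

theorem map_psi {Ω : Type*} [MeasurableSpace Ω] (P : Measure Ω) [IsProbabilityMeasure P] :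
    Measure.map psi ((P.prod P).prod (P.prod P)) = Measure.pi (fun _ : Fin 4 => P) := by
  symm
  refine Measure.pi_eq fun s hs => ?_
  rw [Measure.map_apply psi_meas (MeasurableSet.univ_pi hs)]
  have e : psi (Ω := Ω) ⁻¹' (Set.pi Set.univ s) = (s 0 ×ˢ s 1) ×ˢ (s 2 ×ˢ s 3) := by
    ext w
    simp [psi, Set.mem_pi, Fin.forall_fin_succ, and_assoc]
  rw [e, Measure.prod_prod, Measure.prod_prod, Measure.prod_prod, Fin.prod_univ_four]
  ring

/-- the four new variables -/
noncomputable def vv {N : ℕ} (w : ((Fin N → ℝ) × (Fin N → ℝ)) × ((Fin N → ℝ) × (Fin N → ℝ)))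
    (i : Fin N × Fin 4) : ℝ :=
  ![al (fun k => psi w k i.1), be (fun k => psi w k i.1), ga (fun k => psi w k i.1),
    de (fun k => psi w k i.1)] i.2

section vvs

variable {N : ℕ} (w : ((Fin N → ℝ) × (Fin N → ℝ)) × ((Fin N → ℝ) × (Fin N → ℝ))) (x : Fin N)

theorem vv0 : vv w (x, 0) = (w.1.1 x + w.1.2 x + w.2.1 x + w.2.2 x) / 2 := rfl

theorem vv1 : vv w (x, 1) = (w.1.1 x + w.1.2 x - w.2.1 x - w.2.2 x) / 2 := rfl

theorem vv2 : vv w (x, 2) = (w.1.1 x - w.1.2 x + w.2.1 x - w.2.2 x) / 2 := rfl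

theorem vv3 : vv w (x, 3) = -(w.1.1 x - w.1.2 x - w.2.1 x + w.2.2 x) / 2 := rfl

end vvs

theorem mo_coord (hLAW : T_LAW) {d : ℕ} {e : V d} (A : Sys d e) (x : Fin A.N) :
    Mo A.law (fun φ => φ x) := by
  obtain ⟨_, _, hP, _, hI⟩ := hLAW d e A
  refine ⟨(measurable_pi_apply x).aestronglyMeasurable, fun p => ?_⟩
  refine hI _ (p.factorial : ℝ) (by fun_prop) fun φ => ?_
  have h1 := Real.pow_div_factorial_le_exp (φ x ^ 2) (sq_nonneg _) p
  have hf : (0 : ℝ) < p.factorial := by exact_mod_cast p.factorial_pos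
  have hf1 : (1 : ℝ) ≤ p.factorial := by exact_mod_cast p.factorial_pos
  rw [div_le_iff₀ hf] at h1
  have h2 : |φ x ^ (2 * p)| = (φ x ^ 2) ^ p := by
    rw [pow_mul, abs_of_nonneg (by positivity)]
  rw [h2]
  have h3 : φ x ^ 2 ≤ ∑ x, φ x ^ 2 :=
    Finset.single_le_sum (f := fun x => φ x ^ 2) (fun i _ => sq_nonneg _) (Finset.mem_univ x)
  have h4 : (0 : ℝ) ≤ ∑ x, φ x ^ 2 := Finset.sum_nonneg fun i _ => sq_nonneg _
  have h5 : Real.exp (φ x ^ 2) ≤ Real.exp (p.factorial * ∑ x, φ x ^ 2) := by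
    apply Real.exp_le_exp.mpr
    nlinarith
  calc (φ x ^ 2) ^ p ≤ Real.exp (φ x ^ 2) * p.factorial := h1
    _ = p.factorial * Real.exp (φ x ^ 2) := mul_comm _ _
    _ ≤ p.factorial * Real.exp (p.factorial * ∑ x, φ x ^ 2) :=
        mul_le_mul_of_nonneg_left h5 hf.le

section prod

variable {Ω Ω' : Type*} [MeasurableSpace Ω] [MeasurableSpace Ω'] {μ : Measure Ω} {ν : Measure Ω'}
  [IsProbabilityMeasure μ] [IsProbabilityMeasure ν]

theorem Mo.fst {f : Ω → ℝ} (hf : Mo μ f) : Mo (μ.prod ν) (fun z => f z.1) :=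
  ⟨hf.1.comp_fst, fun p => (hf.2 p).comp_fst ν⟩

theorem Mo.snd {f : Ω' → ℝ} (hf : Mo ν f) : Mo (μ.prod ν) (fun z => f z.2) :=
  ⟨hf.1.comp_snd, fun p => (hf.2 p).comp_snd μ⟩

end prod

theorem pf_LEB (hLAW : T_LAW) (hFRP : T_FRP) : T_LEB := by
  intro d e A n c hc T U
  obtain ⟨_, _, hP, _, _⟩ := hLAW d e A
  set P : Measure (Fin A.N → ℝ) := A.law with hPdef
  have hco : ∀ x : Fin A.N, Mo P (fun φ => φ x) := mo_coord hLAW A
  -- pairs of replicas
  set F : (Fin A.N → ℝ) × (Fin A.N → ℝ) → ℝ := fun z => ∏ i ∈ T, ∑ x, c i x * (z.1 x + z.2 x)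
    with hF
  set G : (Fin A.N → ℝ) × (Fin A.N → ℝ) → ℝ := fun z => ∏ i ∈ U, ∑ x, c i x * (z.1 x - z.2 x)
    with hG
  have h1 : ∀ x : Fin A.N, Mo (P.prod P) (fun z => z.1 x) := fun x => (hco x).fst
  have h2 : ∀ x : Fin A.N, Mo (P.prod P) (fun z => z.2 x) := fun x => (hco x).snd
  have h2' : ∀ x : Fin A.N, Mo (P.prod P) (fun z => -z.2 x) := by
    intro x
    have h := (Mo.const (ν := P.prod P) (-1)).mul (h2 x)
    simpa using h
  have hFm : Mo (P.prod P) F :=
    Mo.prod _ fun i _ => Mo.sum _ fun x _ => (Mo.const (c i x)).mul ((h1 x).add (h2 x))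
  have hGm : Mo (P.prod P) G :=
    Mo.prod _ fun i _ => Mo.sum _ fun x _ => (Mo.const (c i x)).mul ((h1 x).add (h2' x))
  -- four replicas
  set Q := (P.prod P).prod (P.prod P) with hQ
  have hv : ∀ i : Fin A.N × Fin 4, Mo Q (fun w => vv w i) := by
    intro i
    have a0 : Mo Q (fun w => w.1.1 i.1) := (h1 i.1).fst
    have a1 : Mo Q (fun w => w.1.2 i.1) := (h2 i.1).fst
    have a2 : Mo Q (fun w => w.2.1 i.1) := (h1 i.1).snd
    have a3 : Mo Q (fun w => w.2.2 i.1) := (h2 i.1).snd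
    have hlin : ∀ b0 b1 b2 b3 : ℝ, Mo Q (fun w => b0 * w.1.1 i.1 + b1 * w.1.2 i.1 +
        b2 * w.2.1 i.1 + b3 * w.2.2 i.1) := fun b0 b1 b2 b3 =>
      ((((Mo.const b0).mul a0).add ((Mo.const b1).mul a1)).add ((Mo.const b2).mul a2)).add
        ((Mo.const b3).mul a3)
    obtain ⟨x, k⟩ := i
    fin_cases k
    · have e : (fun w => vv w (x, (0 : Fin 4))) = fun w : ((Fin A.N → ℝ) × (Fin A.N → ℝ)) ×
          ((Fin A.N → ℝ) × (Fin A.N → ℝ)) => 1 / 2 * w.1.1 x + 1 / 2 * w.1.2 x +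
          1 / 2 * w.2.1 x + 1 / 2 * w.2.2 x := by
        funext w; rw [vv0]; ring
      exact e ▸ hlin (1 / 2) (1 / 2) (1 / 2) (1 / 2)
    · have e : (fun w => vv w (x, (1 : Fin 4))) = fun w : ((Fin A.N → ℝ) × (Fin A.N → ℝ)) ×
          ((Fin A.N → ℝ) × (Fin A.N → ℝ)) => 1 / 2 * w.1.1 x + 1 / 2 * w.1.2 x +
          (-1 / 2) * w.2.1 x + (-1 / 2) * w.2.2 x := by
        funext w; rw [vv1]; ring
      exact e ▸ hlin (1 / 2) (1 / 2) (-1 / 2) (-1 / 2)
    · have e : (fun w => vv w (x, (2 : Fin 4))) = fun w : ((Fin A.N → ℝ) × (Fin A.N → ℝ)) ×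
          ((Fin A.N → ℝ) × (Fin A.N → ℝ)) => 1 / 2 * w.1.1 x + (-1 / 2) * w.1.2 x +
          1 / 2 * w.2.1 x + (-1 / 2) * w.2.2 x := by
        funext w; rw [vv2]; ring
      exact e ▸ hlin (1 / 2) (-1 / 2) (1 / 2) (-1 / 2)
    · have e : (fun w => vv w (x, (3 : Fin 4))) = fun w : ((Fin A.N → ℝ) × (Fin A.N → ℝ)) ×
          ((Fin A.N → ℝ) × (Fin A.N → ℝ)) => (-1 / 2) * w.1.1 x + 1 / 2 * w.1.2 x +
          1 / 2 * w.2.1 x + (-1 / 2) * w.2.2 x := by
        funext w; rw [vv3]; ring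
      exact e ▸ hlin (-1 / 2) (1 / 2) (1 / 2) (-1 / 2)
  -- positivity
  have hpos : ∀ p ∈ cone (Fin A.N × Fin 4), 0 ≤ ∫ w, (MvPolynomial.eval (vv w) p : ℝ) ∂Q := by
    intro p hp
    have e1 : (fun w => MvPolynomial.eval (vv (N := A.N) w) p) = fun w =>
        ∑ m ∈ p.support, p.coeff m * ∏ i, vv w i ^ m i := by
      funext w
      rw [MvPolynomial.eval_eq']
    rw [e1, integral_finsetSum]
    · refine Finset.sum_nonneg fun m _ => ?_
      rw [integral_const_mul]
      refine mul_nonneg (hp m) ?_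
      have h3 := hFRP d e A (fun x k => m (x, k))
      rw [← hPdef, ← map_psi P, integral_map psi_meas.aemeasurable] at h3
      · refine h3.trans (le_of_eq ?_)
        refine integral_congr_ae (Filter.Eventually.of_forall fun w => ?_)
        show _ = ∏ i, vv w i ^ m i
        rw [Fintype.prod_prod_type]
        refine Finset.prod_congr rfl fun x _ => ?_
        rw [Fin.prod_univ_four]
        rfl
      · refine Continuous.aestronglyMeasurable ?_
        unfold al be ga de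
        fun_prop
    · intro m _
      exact ((Mo.const _).mul (Mo.prod _ fun i _ => (hv i).pow _)).integrable
  -- the differences
  have hFd : ∃ p ∈ cone (Fin A.N × Fin 4), ∀ w, MvPolynomial.eval (vv w) p = F w.1 - F w.2 := by
    have h := (diff_mem (cone (Fin A.N × Fin 4))
      (fun i : Fin n => ∑ x, MvPolynomial.C (c i x) * MvPolynomial.X (x, (0 : Fin 4)))
      (fun i : Fin n => ∑ x, MvPolynomial.C (c i x) * MvPolynomial.X (x, (1 : Fin 4)))
      (fun i => Subsemiring.sum_mem _ fun x _ => Subsemiring.mul_mem _ (C_mem (hc i x)) (X_mem _))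
      (fun i => Subsemiring.sum_mem _ fun x _ => Subsemiring.mul_mem _ (C_mem (hc i x)) (X_mem _))
      T).1
    refine ⟨_, h, fun w => ?_⟩
    rw [map_sub, map_prod, map_prod, hF]
    show _ = ∏ i ∈ T, ∑ x, c i x * (w.1.1 x + w.1.2 x) - ∏ i ∈ T, ∑ x, c i x * (w.2.1 x + w.2.2 x)
    congr 1
    · refine Finset.prod_congr rfl fun i _ => ?_
      rw [map_add, map_sum, map_sum, ← Finset.sum_add_distrib]
      refine Finset.sum_congr rfl fun x _ => ?_
      rw [map_mul, map_mul, MvPolynomial.eval_C, MvPolynomial.eval_X, MvPolynomial.eval_X, vv0, vv1]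
      ring
    · refine Finset.prod_congr rfl fun i _ => ?_
      rw [map_sub, map_sum, map_sum, ← Finset.sum_sub_distrib]
      refine Finset.sum_congr rfl fun x _ => ?_
      rw [map_mul, map_mul, MvPolynomial.eval_C, MvPolynomial.eval_X, MvPolynomial.eval_X, vv0, vv1]
      ring
  have hGd : ∃ p ∈ cone (Fin A.N × Fin 4), ∀ w, MvPolynomial.eval (vv w) p = G w.2 - G w.1 := by
    have h := (diff_mem (cone (Fin A.N × Fin 4))
      (fun i : Fin n => ∑ x, MvPolynomial.C (c i x) * MvPolynomial.X (x, (2 : Fin 4)))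
      (fun i : Fin n => ∑ x, MvPolynomial.C (c i x) * MvPolynomial.X (x, (3 : Fin 4)))
      (fun i => Subsemiring.sum_mem _ fun x _ => Subsemiring.mul_mem _ (C_mem (hc i x)) (X_mem _))
      (fun i => Subsemiring.sum_mem _ fun x _ => Subsemiring.mul_mem _ (C_mem (hc i x)) (X_mem _))
      U).1
    refine ⟨_, h, fun w => ?_⟩
    rw [map_sub, map_prod, map_prod, hG]
    show _ = ∏ i ∈ U, ∑ x, c i x * (w.2.1 x - w.2.2 x) - ∏ i ∈ U, ∑ x, c i x * (w.1.1 x - w.1.2 x)
    congr 1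
    · refine Finset.prod_congr rfl fun i _ => ?_
      rw [map_add, map_sum, map_sum, ← Finset.sum_add_distrib]
      refine Finset.sum_congr rfl fun x _ => ?_
      rw [map_mul, map_mul, MvPolynomial.eval_C, MvPolynomial.eval_X, MvPolynomial.eval_X, vv2, vv3]
      ring
    · refine Finset.prod_congr rfl fun i _ => ?_
      rw [map_sub, map_sum, map_sum, ← Finset.sum_sub_distrib]
      refine Finset.sum_congr rfl fun x _ => ?_
      rw [map_mul, map_mul, MvPolynomial.eval_C, MvPolynomial.eval_X, MvPolynomial.eval_X, vv2, vv3]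
      ring
  obtain ⟨p, hp, hpe⟩ := hFd
  obtain ⟨q, hq, hqe⟩ := hGd
  have hpq := hpos (p * q) (Subsemiring.mul_mem _ hp hq)
  have e2 : (fun w => MvPolynomial.eval (vv w) (p * q)) = fun w =>
      ((F w.1 * G w.2 + F w.2 * G w.1) - (F w.1 * G w.1 + F w.2 * G w.2)) := by
    funext w
    rw [map_mul, hpe, hqe]
    ring
  have i11 : Integrable (fun w => F w.1 * G w.1) Q := (hFm.fst.mul hGm.fst).integrable
  have i22 : Integrable (fun w => F w.2 * G w.2) Q := (hFm.snd.mul hGm.snd).integrable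
  have i12 : Integrable (fun w => F w.1 * G w.2) Q := (hFm.fst.mul hGm.snd).integrable
  have i21 : Integrable (fun w => F w.2 * G w.1) Q := (hFm.snd.mul hGm.fst).integrable
  have j1 : Integrable (fun w => F w.1 * G w.2 + F w.2 * G w.1) Q := i12.add i21
  have j2 : Integrable (fun w => F w.1 * G w.1 + F w.2 * G w.2) Q := i11.add i22
  rw [e2, integral_sub j1 j2, integral_add i12 i21, integral_add i11 i22] at hpq
  have v12 : ∫ w, F w.1 * G w.2 ∂Q = (∫ z, F z ∂(P.prod P)) * ∫ z, G z ∂(P.prod P) :=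
    integral_prod_mul F G
  have v21 : ∫ w, F w.2 * G w.1 ∂Q = (∫ z, F z ∂(P.prod P)) * ∫ z, G z ∂(P.prod P) := by
    have h := integral_prod_mul (μ := P.prod P) (ν := P.prod P) G F
    rw [mul_comm (∫ z, F z ∂(P.prod P)), ← h]
    refine integral_congr_ae (Filter.Eventually.of_forall fun w => ?_)
    exact mul_comm _ _
  have v11 : ∫ w, F w.1 * G w.1 ∂Q = ∫ z, F z * G z ∂(P.prod P) := by
    have h := integral_fun_fst (μ := P.prod P) (ν := P.prod P) (fun z => F z * G z)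
    rw [hQ, h]
    simp
  have v22 : ∫ w, F w.2 * G w.2 ∂Q = ∫ z, F z * G z ∂(P.prod P) := by
    have h := integral_fun_snd (μ := P.prod P) (ν := P.prod P) (fun z => F z * G z)
    rw [hQ, h]
    simp
  rw [v12, v21, v11, v22] at hpq
  linarith

end Pool.Agent.H1.LD
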