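import Pool.Agent.H11.LD.Targets

set_option autoImplicit false

open Finset Classical

namespace Pool.Agent.H1.LD

open Pool.Agent.H11.LD Pool.Agent.H9.Lap

/-- the graph of the clusters -/
def quo {V : Type} (G : SimpleGraph V) {g : ℕ} (p : V → Fin g) : SimpleGraph (Fin g) where
  Adj i k := i ≠ k ∧ ∃ a b, G.Adj a b ∧ p a = i ∧ p b = k
  symm := ⟨fun _ _ h => ⟨h.1.symm, by
    obtain ⟨-, a, b, h1, h2, h3⟩ := h
    exact ⟨b, a, h1.symm, h3, h2⟩⟩⟩
  loopless := ⟨fun _ h => h.1 rfl⟩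

theorem quo_connected {V : Type} {G : SimpleGraph V} {g : ℕ} {p : V → Fin g} {c : Fin g → V}
    (hpc : ∀ i, p (c i) = i) (hG : G.Connected) : (quo G p).Connected := by
  have hw : ∀ a b : V, G.Walk a b → (quo G p).Reachable (p a) (p b) := by
    intro a b W
    induction W with
    | nil => exact SimpleGraph.Reachable.refl _
    | @cons a b d hab _ ih =>
      by_cases h : p a = p b
      · rw [h]
        exact ih
      · have h1 : (quo G p).Adj (p a) (p b) := ⟨h, a, b, hab, rfl, rfl⟩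
        exact h1.reachable.trans ih
  obtain ⟨v⟩ := hG.nonempty
  have : Nonempty (Fin g) := ⟨p v⟩
  refine SimpleGraph.Connected.mk fun i k => ?_
  obtain ⟨W⟩ := hG.preconnected (c i) (c k)
  have := hw _ _ W
  rwa [hpc, hpc] at this

theorem pf_MLB (hDEG : T_DEG) (hROOT : T_ROOT) (hCLU : T_CLU) (hHAM : T_HAM) (hDG2 : T_DG2)
    (hPLB : T_PLB) (hGEN : T_GEN) : T_MLB := by
  intro V _ G g m μ x hg hm hcard hG hdom hμ hU
  obtain ⟨μ', hμ', -, -, hμ1, -, hroot, hcos, -, -⟩ := hROOT g m hg hm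
  have hmm : μ' = μ := hμ'.unique hμ
  subst hmm
  have hm3 : (3 : ℝ) ≤ m := by exact_mod_cast hm
  have hx0 : (m : ℝ) + 1 / (m * (m - 1)) ≤ x := by
    refine hGEN V G g m x hg (by omega) ?_ hG hdom hU
    rw [hcard]
    exact (Nat.mul_lt_mul_left (by omega)).2 (by omega)
  have hx3 : 3 < x := by
    have : 0 < 1 / ((m : ℝ) * (m - 1)) := by
      apply one_div_pos.2
      apply mul_pos <;> linarith
    linarith
  by_cases hdeg : ∃ v, m ≤ (nb G v).card
  · obtain ⟨v, hv⟩ := hdeg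
    have h1 := hDEG V G x hU v (by omega)
    have h2 : (m : ℝ) ≤ (nb G v).card := by exact_mod_cast hv
    linarith
  push Not at hdeg
  obtain ⟨p, c, hC⟩ := hCLU V G g m (by omega) (by omega) hcard hdom fun v => by
    have := hdeg v
    omega
  by_cases h3 : ∃ i, 2 < (nb (quo G p) i).card
  · obtain ⟨i, hi⟩ := h3
    obtain ⟨k₁, k₂, k₃, h1, h2, h3, h12, h13, h23⟩ := Finset.two_lt_card_iff.1 hi
    unfold nb at h1 h2 h3
    rw [mem_filter] at h1 h2 h3
    refine hroot x hx3 (hcos.le.trans ?_)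
    by_contra hcon
    push Not at hcon
    exact hDG2 V G g m p c x hC (by omega) hx3 hU hcon i k₁ k₂ k₃ h1.2.1.symm h2.2.1.symm
      h3.2.1.symm h12 h13 h23 h1.2.2 h2.2.2 h3.2.2
  push Not at h3
  obtain ⟨pos, hlt, hinj, hadj⟩ := hHAM g (quo G p) (quo_connected hC.pc hG) h3
  have hq : ∀ i, ∃ q : V × V, p q.1 = i ∧ ∀ k, pos k = pos i + 1 →
      G.Adj q.1 q.2 ∧ p q.2 = k := by
    intro i
    by_cases h : ∃ k, pos k = pos i + 1
    · obtain ⟨k, hk⟩ := h
      obtain ⟨-, a, b, h1, h2, h3⟩ := hadj i k hk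
      refine ⟨(a, b), h2, fun k' hk' => ⟨h1, ?_⟩⟩
      rw [hinj (hk'.trans hk.symm)]
      exact h3
    · exact ⟨(c i, c i), hC.pc i, fun k hk => absurd ⟨k, hk⟩ h⟩
  choose q hq1 hq2 using hq
  have hw : ∀ k, ∃ b, p b = k ∧ ∀ i, pos k = pos i + 1 → b = (q i).2 := by
    intro k
    by_cases h : ∃ i, pos k = pos i + 1
    · obtain ⟨i, hi⟩ := h
      refine ⟨(q i).2, (hq2 i k hi).2, fun i' hi' => ?_⟩
      rw [hinj (show pos i' = pos i by omega)]
    · exact ⟨c k, hC.pc k, fun i hi => absurd ⟨i, hi⟩ h⟩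
  choose w hw1 hw2 using hw
  have hR : Row G p pos (fun i => (q i).1) w := by
    refine ⟨hlt, hinj, hq1, hw1, fun i k hik => ?_⟩
    rw [hw2 k i hik]
    exact (hq2 i k hik).1
  exact hroot x hx3 (hPLB V G g m p c pos _ w x hC (by omega) hg hR hx3 hU)

end Pool.Agent.H1.LD
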