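import Pool.Agent.H11.LD.Targets

set_option autoImplicit false

open Finset Classical

namespace Pool.Agent.H1.LD

open Pool.Agent.H11.LD Pool.Agent.H9.Lap

/-- the pairs of consecutive clusters -/
noncomputable def rowP {g : ℕ} (pos : Fin g → ℕ) : Finset (Fin g × Fin g) :=
  univ.filter fun q => pos q.2 = pos q.1 + 1

/-- the edges of the row -/
noncomputable def rowE {V : Type} {g : ℕ} (pos : Fin g → ℕ) (u w : Fin g → V) : Finset (V × V) :=
  (rowP pos).image fun q => (u q.1, w q.2)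

/-- the weights of the clusters -/
noncomputable def rowA {g : ℕ} (pos : Fin g → ℕ) (i : Fin g) : ℝ := sn g (pos i)

/-- the signs of the clusters -/
noncomputable def rowS {g : ℕ} (pos : Fin g → ℕ) (i : Fin g) : ℝ := (-1) ^ pos i

theorem mem_rowP {g : ℕ} {pos : Fin g → ℕ} {q : Fin g × Fin g} :
    q ∈ rowP pos ↔ pos q.2 = pos q.1 + 1 := by
  unfold rowP
  rw [mem_filter]
  exact ⟨fun h => h.2, fun h => ⟨mem_univ _, h⟩⟩

theorem mem_rowE {V : Type} {g : ℕ} {pos : Fin g → ℕ} {u w : Fin g → V} {e : V × V} :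
    e ∈ rowE pos u w ↔ ∃ i k, pos k = pos i + 1 ∧ e = (u i, w k) := by
  unfold rowE
  rw [mem_image]
  constructor
  · rintro ⟨q, hq, rfl⟩
    exact ⟨q.1, q.2, mem_rowP.1 hq, rfl⟩
  · rintro ⟨i, k, h, rfl⟩
    exact ⟨(i, k), mem_rowP.2 h, rfl⟩

section

variable {V : Type} [Fintype V] {G : SimpleGraph V} {g : ℕ} {p : V → Fin g}
  {pos : Fin g → ℕ} {u w : Fin g → V}

theorem sys_row (h : Row G p pos u w) (hsn : ∀ i, i < g → 0 < sn g i) :
    Sys G p (rowE pos u w) (rowA pos) (rowS pos) where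
  nn i := (hsn _ (h.lt i)).le
  sg i := neg_one_pow_eq_or ℝ _
  adj e he := by
    obtain ⟨i, k, hik, rfl⟩ := mem_rowE.1 he
    exact h.adj i k hik
  alt e he := by
    obtain ⟨i, k, hik, rfl⟩ := mem_rowE.1 he
    unfold rowS
    rw [h.pu, h.pw, hik, pow_succ]
    ring
  ori e he he' := by
    obtain ⟨i, k, hik, rfl⟩ := mem_rowE.1 he
    obtain ⟨i', k', hik', h2⟩ := mem_rowE.1 he'
    have h3 : w k = u i' := congrArg Prod.fst h2
    have h4 : u i = w k' := congrArg Prod.snd h2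
    have h5 : k = i' := by rw [← h.pw k, h3, h.pu]
    have h6 : i = k' := by rw [← h.pu i, h4, h.pw]
    subst h5 h6
    omega

/-- the positions are a bijection -/
noncomputable def posE (h : Row G p pos u w) : Fin g ≃ Fin g :=
  Equiv.ofBijective (fun i => ⟨pos i, h.lt i⟩) (Finite.injective_iff_bijective.1
    fun i k hik => h.inj (congrArg Fin.val hik))

theorem posE_val (h : Row G p pos u w) (i : Fin g) : ((posE h i : Fin g) : ℕ) = pos i := rfl

theorem pos_symm (h : Row G p pos u w) (j : Fin g) : pos ((posE h).symm j) = j := by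
  rw [← posE_val h, Equiv.apply_symm_apply]

theorem sum_rowA (h : Row G p pos u w) (F : ℕ → ℝ) :
    ∑ i, F (pos i) = ∑ i ∈ range g, F i := by
  rw [← Fin.sum_univ_eq_sum_range]
  exact Equiv.sum_comp (posE h) fun j : Fin g => F (j : ℕ)

theorem sum_rowP (h : Row G p pos u w) (F : ℕ → ℝ) :
    ∑ q ∈ rowP pos, F (pos q.1) = ∑ i ∈ range (g - 1), F i := by
  refine Finset.sum_bij' (fun q _ => pos q.1)
    (fun j hj => ((posE h).symm ⟨j, by rw [mem_range] at hj; omega⟩,
      (posE h).symm ⟨j + 1, by rw [mem_range] at hj; omega⟩)) ?_ ?_ ?_ ?_ ?_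
  · intro q hq
    have h1 := mem_rowP.1 hq
    have h2 := h.lt q.2
    rw [mem_range]
    omega
  · intro j hj
    rw [mem_rowP]
    rw [mem_range] at hj
    exact (pos_symm h ⟨j + 1, by omega⟩).trans
      (congrArg (fun x => x + 1) (pos_symm h ⟨j, by omega⟩).symm)
  · intro q hq
    have h1 := mem_rowP.1 hq
    refine Prod.ext ?_ ?_
    · exact h.inj (pos_symm h _)
    · exact h.inj ((pos_symm h _).trans h1.symm)
  · intro j hj
    exact pos_symm h _
  · intro q hq
    rfl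

theorem sum_rowE (h : Row G p pos u w) (F : V × V → ℝ) :
    ∑ e ∈ rowE pos u w, F e = ∑ q ∈ rowP pos, F (u q.1, w q.2) := by
  unfold rowE
  refine Finset.sum_image fun q _ q' _ hqq => ?_
  have h3 : u q.1 = u q'.1 := congrArg Prod.fst hqq
  have h4 : w q.2 = w q'.2 := congrArg Prod.snd hqq
  refine Prod.ext ?_ ?_
  · rw [← h.pu q.1, h3, h.pu]
  · rw [← h.pw q.2, h4, h.pw]

theorem sum_wt (h : Row G p pos u w) :
    ∑ e ∈ rowE pos u w, wt p (rowA pos) e ^ 2 =
      ∑ i ∈ range (g - 1), (sn g i + sn g (i + 1)) ^ 2 := by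
  rw [sum_rowE h, ← sum_rowP h fun i => (sn g i + sn g (i + 1)) ^ 2]
  refine Finset.sum_congr rfl fun q hq => ?_
  unfold wt rowA
  simp only
  rw [h.pu, h.pw, mem_rowP.1 hq]

theorem sum_sqA (h : Row G p pos u w) :
    ∑ i, rowA pos i ^ 2 = ∑ i ∈ range g, sn g i ^ 2 :=
  sum_rowA h fun i => sn g i ^ 2

/-- the two sides of `T_LB` for the row -/
theorem sum_row (hSIN : T_SIN) (hg : 2 ≤ g) (h : Row G p pos u w) :
    ∑ e ∈ rowE pos u w, wt p (rowA pos) e ^ 2 =
      4 * Real.cos (Real.pi / (2 * g)) ^ 2 * ∑ i, rowA pos i ^ 2 := by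
  rw [sum_wt h, sum_sqA h, (hSIN g hg).2.2.2.2.2]

theorem sum_pos' (hSIN : T_SIN) (hg : 2 ≤ g) (h : Row G p pos u w) :
    0 < ∑ i, rowA pos i ^ 2 := by
  have : Nonempty (Fin g) := ⟨⟨0, by omega⟩⟩
  refine Finset.sum_pos (fun i _ => ?_) univ_nonempty
  have := (hSIN g hg).1 _ (h.lt i)
  unfold rowA
  positivity

end

theorem pf_PLB (hLB : T_LB) (hSIN : T_SIN) : T_PLB := by
  intro V _ G g m p c pos u w μ hC hm hg hR hμ hU
  have h1 := hLB V G g m p c (rowE pos u w) (rowA pos) (rowS pos) μ hC hm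
    (sys_row hR (hSIN g hg).1) hμ hU
  rw [sum_row hSIN hg hR] at h1
  exact le_of_mul_le_mul_right h1 (sum_pos' hSIN hg hR)

end Pool.Agent.H1.LD
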