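import Pool.Agent.H1.LD.LEB

/-!
# Row ST4 of the board ldp (helper80, MP_47c37b_mp)

From the Lebowitz inequality to the inequality for the moments.
-/

set_option autoImplicit false

open MeasureTheory Filter Topology

namespace Pool.Agent.H1.LD

open Pool.Agent.H80.LD
open Pool.Agent.H43.DPC (V)

/-- Odd moments vanish. -/
theorem odd_zero (hLAW : T_LAW) (hGKS : T_GKS) {d : ℕ} {e : V d} (A : Sys d e) {n : ℕ}
    (c : Fin n → Fin A.N → ℝ) (W : Finset (Fin n)) (hW : Odd W.card) :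
    ∫ φ, ∏ i ∈ W, ∑ x, c i x * φ x ∂A.law = 0 := by
  obtain ⟨_, _, hP, _, _⟩ := hLAW d e A
  have hco : ∀ x : Fin A.N, Mo A.law (fun φ => φ x) := mo_coord hLAW A
  set p : MvPolynomial (Fin A.N) ℝ :=
    ∏ i ∈ W, ∑ x, MvPolynomial.C (c i x) * MvPolynomial.X x with hp
  have hh : p.IsHomogeneous W.card := by
    have h := MvPolynomial.IsHomogeneous.prod W
      (fun i => ∑ x, MvPolynomial.C (c i x) * MvPolynomial.X x) (fun _ => 1) fun i _ =>
      MvPolynomial.IsHomogeneous.sum _ _ 1 fun x _ => MvPolynomial.isHomogeneous_C_mul_X _ _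
    simpa using h
  have e1 : (fun φ : Fin A.N → ℝ => ∏ i ∈ W, ∑ x, c i x * φ x) = fun φ =>
      ∑ m ∈ p.support, p.coeff m * ∏ x, φ x ^ m x := by
    funext φ
    rw [← MvPolynomial.eval_eq', hp, map_prod]
    refine Finset.prod_congr rfl fun i _ => ?_
    rw [map_sum]
    refine Finset.sum_congr rfl fun x _ => ?_
    rw [map_mul, MvPolynomial.eval_C, MvPolynomial.eval_X]
  rw [e1, integral_finsetSum]
  · refine Finset.sum_eq_zero fun m hm => ?_
    rw [integral_const_mul]
    have h1 : ∑ x, m x = W.card := by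
      have h2 := hh (MvPolynomial.mem_support_iff.mp hm)
      rw [← h2, Finsupp.weight_apply, Finsupp.sum_fintype _ _ (by simp)]
      refine Finset.sum_congr rfl fun x _ => ?_
      simp
    rw [(hGKS d e A (fun x => m x)).2 (by rw [h1]; exact hW), mul_zero]
  · intro m _
    exact ((Mo.const _).mul (Mo.prod _ fun i _ => (hco i).pow _)).integrable

theorem pf_ST4 (hLAW : T_LAW) (hLEB : T_LEB) (hGKS : T_GKS) : T_ST4 := by
  intro d e A n c hc a ha T
  obtain ⟨_, _, hP, _, _⟩ := hLAW d e A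
  have hodd : ∀ W : Finset (Fin n), Odd W.card → a W = 0 := fun W hW => by
    rw [ha W]
    exact odd_zero hLAW hGKS A c W hW
  have hle := hLEB d e A n c hc
  set P : Measure (Fin A.N → ℝ) := A.law with hPdef
  have hco : ∀ x : Fin A.N, Mo P (fun φ => φ x) := mo_coord hLAW A
  set X : Fin n → (Fin A.N → ℝ) → ℝ := fun i φ => ∑ x, c i x * φ x with hX
  have hXm : ∀ i, Mo P (X i) := fun i => Mo.sum _ fun x _ => (Mo.const (c i x)).mul (hco x)
  have hX1 : ∀ i, Mo (P.prod P) (fun z => X i z.1) := fun i => (hXm i).fst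
  have hX2 : ∀ i, Mo (P.prod P) (fun z => X i z.2) := fun i => (hXm i).snd
  have hX2' : ∀ i, Mo (P.prod P) (fun z => -X i z.2) := by
    intro i
    have h := (Mo.const (ν := P.prod P) (-1)).mul (hX2 i)
    simpa using h
  -- the sums and the differences
  have ht : ∀ (i : Fin n) (z : (Fin A.N → ℝ) × (Fin A.N → ℝ)),
      ∑ x, c i x * (z.1 x + z.2 x) = X i z.1 + X i z.2 := by
    intro i z
    rw [hX, ← Finset.sum_add_distrib]
    exact Finset.sum_congr rfl fun x _ => mul_add _ _ _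
  have hq : ∀ (i : Fin n) (z : (Fin A.N → ℝ) × (Fin A.N → ℝ)),
      ∑ x, c i x * (z.1 x - z.2 x) = X i z.1 + -X i z.2 := by
    intro i z
    rw [hX, ← sub_eq_add_neg, ← Finset.sum_sub_distrib]
    exact Finset.sum_congr rfl fun x _ => mul_sub _ _ _
  simp only [ht, hq] at hle
  have ha' : ∀ W, ∫ φ, ∏ i ∈ W, X i φ ∂P = a W := fun W => (ha W).symm
  have htU : ∀ U : Finset (Fin n), ∫ z, ∏ i ∈ U, (X i z.1 + X i z.2) ∂(P.prod P) = cv a a U := by
    intro U
    have e1 : (fun z : (Fin A.N → ℝ) × (Fin A.N → ℝ) => ∏ i ∈ U, (X i z.1 + X i z.2)) = fun z =>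
        ∑ W ∈ U.powerset, (∏ i ∈ W, X i z.1) * ∏ i ∈ U \ W, X i z.2 := by
      funext z
      rw [Finset.prod_add]
    rw [e1, integral_finsetSum]
    · unfold cv
      refine Finset.sum_congr rfl fun W _ => ?_
      have h := integral_prod_mul (μ := P) (ν := P) (fun φ => ∏ i ∈ W, X i φ)
        (fun φ => ∏ i ∈ U \ W, X i φ)
      rw [ha', ha'] at h
      exact h
    · intro W _
      exact ((Mo.prod _ fun i _ => hX1 i).mul (Mo.prod _ fun i _ => hX2 i)).integrable
  have hqU : ∀ U : Finset (Fin n), ∫ z, ∏ i ∈ U, (X i z.1 + -X i z.2) ∂(P.prod P) = cv a a U := by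
    intro U
    have e1 : (fun z : (Fin A.N → ℝ) × (Fin A.N → ℝ) => ∏ i ∈ U, (X i z.1 + -X i z.2)) = fun z =>
        ∑ W ∈ U.powerset, (∏ i ∈ W, X i z.1) * ((-1) ^ (U \ W).card * ∏ i ∈ U \ W, X i z.2) := by
      funext z
      rw [Finset.prod_add]
      refine Finset.sum_congr rfl fun W _ => ?_
      rw [Finset.prod_neg]
    rw [e1, integral_finsetSum]
    · unfold cv
      refine Finset.sum_congr rfl fun W _ => ?_
      have h := integral_prod_mul (μ := P) (ν := P) (fun φ => ∏ i ∈ W, X i φ)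
        (fun φ => (-1) ^ (U \ W).card * ∏ i ∈ U \ W, X i φ)
      rw [integral_const_mul, ha', ha'] at h
      refine h.trans ?_
      rcases Nat.even_or_odd (U \ W).card with h1 | h1
      · rw [h1.neg_one_pow, one_mul]
      · rw [hodd _ h1, mul_zero]
    · intro W _
      exact ((Mo.prod _ fun i _ => hX1 i).mul
        ((Mo.const _).mul (Mo.prod _ fun i _ => hX2 i))).integrable
  -- the left side
  have hL : 2 ^ T.card * a T = ∫ z, ∏ i ∈ T, ((X i z.1 + X i z.2) + (X i z.1 + -X i z.2))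
      ∂(P.prod P) := by
    have e1 : (fun z : (Fin A.N → ℝ) × (Fin A.N → ℝ) =>
        ∏ i ∈ T, ((X i z.1 + X i z.2) + (X i z.1 + -X i z.2))) = fun z =>
        2 ^ T.card * ∏ i ∈ T, X i z.1 := by
      funext z
      rw [← Finset.prod_const, ← Finset.prod_mul_distrib]
      refine Finset.prod_congr rfl fun i _ => ?_
      ring
    rw [e1, integral_const_mul]
    congr 1
    have h := integral_fun_fst (μ := P) (ν := P) (fun φ => ∏ i ∈ T, X i φ)
    rw [h, ha']
    simp
  rw [hL]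
  have e2 : (fun z : (Fin A.N → ℝ) × (Fin A.N → ℝ) =>
      ∏ i ∈ T, ((X i z.1 + X i z.2) + (X i z.1 + -X i z.2))) = fun z =>
      ∑ U ∈ T.powerset, (∏ i ∈ U, (X i z.1 + X i z.2)) * ∏ i ∈ T \ U, (X i z.1 + -X i z.2) := by
    funext z
    rw [Finset.prod_add]
  rw [e2, integral_finsetSum]
  · unfold cv
    refine Finset.sum_le_sum fun U _ => (hle U (T \ U)).trans (le_of_eq ?_)
    rw [htU, hqU]
    rfl
  · intro U _
    exact ((Mo.prod _ fun i _ => (hX1 i).add (hX2 i)).mul
      (Mo.prod _ fun i _ => (hX1 i).add (hX2' i))).integrable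

end Pool.Agent.H1.LD
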